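import Pool.Agent.W70.HR.Stm

/-! HR-DEN: the proportion of the good tuples in one class. -/

set_option autoImplicit false

open Finset

namespace Pool.Agent.W12.HR

open Pool.Agent.H361R2.PP Pool.Agent.W70.HR

theorem exists_min (f : ℕ → ℝ) (hf : ∀ n, 0 < f n) (M : ℕ) : ∃ δ : ℝ, 0 < δ ∧ ∀ T ≤ M, δ ≤ f T := by
  induction M with
  | zero =>
    refine ⟨f 0, hf 0, fun T hT => ?_⟩
    rw [Nat.le_zero.mp hT]
  | succ M ih =>
    obtain ⟨δ, hδ, h⟩ := ih
    refine ⟨min δ (f (M + 1)), lt_min hδ (hf _), fun T hT => ?_⟩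
    rcases Nat.lt_or_ge T (M + 1) with h1 | h1
    · exact (min_le_left _ _).trans (h T (by omega))
    · have : T = M + 1 := by omega
      rw [this]
      exact min_le_right _ _

theorem exists_max (f : ℕ → ℕ) (M : ℕ) : ∃ X : ℕ, ∀ T ≤ M, f T ≤ X := by
  induction M with
  | zero =>
    refine ⟨f 0, fun T hT => ?_⟩
    rw [Nat.le_zero.mp hT]
  | succ M ih =>
    obtain ⟨X, h⟩ := ih
    refine ⟨max X (f (M + 1)), fun T hT => ?_⟩
    rcases Nat.lt_or_ge T (M + 1) with h1 | h1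
    · exact (h T (by omega)).trans (le_max_left _ _)
    · have : T = M + 1 := by omega
      rw [this]
      exact le_max_right _ _

theorem ex_nonneg (X l : ℕ) : 0 ≤ ex X l := by
  unfold ex
  have h : 0 ≤ Real.log X := Real.log_natCast_nonneg X
  positivity

theorem Gd_mono {k : ℕ} {δ δ' : ℝ} {X b : ℕ} {F : Finset ℕ} (h : δ ≤ δ') (hG : Gd k δ' X b F) :
    Gd k δ X b F := by
  intro y hy hyF
  exact (mul_le_mul_of_nonneg_right h (ex_nonneg _ _)).trans (hG y hy hyF)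

theorem Gd_sub {k : ℕ} {δ : ℝ} {X b : ℕ} {F F' : Finset ℕ} (h : F' ⊆ F) (hG : Gd k δ X b F) :
    Gd k δ X b F' := fun y hy hyF => hG y hy (fun i => h (hyF i))

theorem Exc_anti {G G' : Finset ℕ → Prop} (h : ∀ F, G F → G' F) (T K : ℕ) (V : Finset ℕ) :
    Exc G' T K V ⊆ Exc G T K V := by
  classical
  intro H hH
  unfold Exc at hH ⊢
  rw [Finset.mem_filter] at hH ⊢
  refine ⟨hH.1, hH.2.1, ?_⟩
  rintro ⟨S, c, h1, h2⟩
  exact hH.2.2 ⟨S, c, h1, h _ h2⟩

open Filter in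
theorem large (hW : Wtx) (η : ℝ) (hη : 0 < η) (n₁ : ℕ) : ∃ X₀ : ℕ, ∀ X : ℕ, X₀ ≤ X →
    (n₁ : ℝ) ≤ η * (Real.log X * (Nat.totient (Wm X) / Wm X)) := by
  have h1 : Tendsto (fun X : ℕ => η * Real.log X ^ (13 / 20 : ℝ)) atTop atTop := by
    apply Tendsto.const_mul_atTop hη
    exact (tendsto_rpow_atTop (by norm_num)).comp (Real.tendsto_log_atTop.comp tendsto_natCast_atTop_atTop)
  obtain ⟨X1, hX1⟩ := (eventually_atTop.mp (h1.eventually_ge_atTop (n₁ : ℝ)))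
  refine ⟨max X1 16, fun X hX => (hX1 X ((le_max_left _ _).trans hX)).trans ?_⟩
  have hX16 : 16 ≤ X := (le_max_right _ _).trans hX
  have hXr : (16 : ℝ) ≤ X := by exact_mod_cast hX16
  have hl : 0 < Real.log X := Real.log_pos (by linarith)
  have hWle := hW.1 X hX16
  have hW0 : 0 < Wm X := by unfold Wm; exact primorial_pos _
  have hW0r : (0 : ℝ) < Wm X := by exact_mod_cast hW0
  have hphi : (1 : ℝ) ≤ Nat.totient (Wm X) := by
    exact_mod_cast Nat.totient_pos.mpr hW0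
  apply mul_le_mul_of_nonneg_left _ hη.le
  calc Real.log X ^ (13 / 20 : ℝ) = Real.log X / Real.log X ^ (7 / 20 : ℝ) := by
        rw [eq_div_iff (Real.rpow_pos_of_pos hl _).ne', ← Real.rpow_add hl]
        norm_num
    _ ≤ Real.log X / Wm X := div_le_div_of_nonneg_left hl.le hW0r hWle
    _ = Real.log X * (1 / Wm X) := by ring
    _ ≤ Real.log X * (Nat.totient (Wm X) / Wm X) := by
        apply mul_le_mul_of_nonneg_left _ hl.le
        exact div_le_div_of_nonneg_right hphi hW0r.le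

theorem den : S_MT → S_EX → S_SAMP → Wtx → S_DEN := by
  classical
  intro hMT hEX hSA hW k Λ η ε hΛ hη hε
  have h1 : ∀ T : ℕ, ∃ K : ℕ, 1 ≤ K ∧ (1 ≤ T → MTat T K) := by
    intro T
    by_cases hT : 1 ≤ T
    · obtain ⟨K, hK, h⟩ := hMT T hT
      exact ⟨K, hK, fun _ => h⟩
    · exact ⟨1, le_refl _, fun h => absurd h hT⟩
  choose Kf hKf hMTf using h1
  obtain ⟨M, ε₁, n₁, hε₁, hS⟩ := hSA k ε hε Kf hKf
  have h2 : ∀ T : ℕ, ∃ (δ : ℝ) (X₀ : ℕ), 0 < δ ∧ (1 ≤ T → ∀ X : ℕ, X₀ ≤ X → ∀ b : ℕ, b < Wm X →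
      ∀ V ⊆ Bw Λ X b, η * (Real.log X * (Nat.totient (Wm X) / Wm X)) ≤ (V.card : ℝ) →
      ((Exc (Gd k δ X b) T (Kf T) V).card : ℝ) ≤ ε₁ * (V.card : ℝ) ^ (T * Kf T)) := by
    intro T
    by_cases hT : 1 ≤ T
    · obtain ⟨δ, hδ, X₀, h⟩ := hEX k T (Kf T) hT (hKf T) (hMTf T hT) Λ η ε₁ hΛ hη hε₁
      exact ⟨δ, X₀, hδ, fun _ => h⟩
    · exact ⟨1, 0, one_pos, fun h => absurd h hT⟩
  choose δf Xf hδf hXf using h2
  obtain ⟨δ, hδ, hδle⟩ := exists_min δf hδf M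
  obtain ⟨X1, hX1⟩ := exists_max Xf M
  obtain ⟨X2, hX2⟩ := large hW η hη n₁
  refine ⟨δ, hδ, max X1 X2, ?_⟩
  intro X hX b hb V hV hcard
  have hXa : X1 ≤ X := (le_max_left _ _).trans hX
  have hXb : X2 ≤ X := (le_max_right _ _).trans hX
  have h3 := hS V (Gd k δ X b) (by exact_mod_cast (hX2 X hXb).trans hcard)
    (fun F F' h hG => Gd_sub h hG) (by
      intro T hT hTM
      refine le_trans ?_ (hXf T hT X ((hX1 T hTM).trans hXa) b hb V hV hcard)
      have := Finset.card_le_card (Exc_anti (G := Gd k (δf T) X b) (G' := Gd k δ X b)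
        (fun F hF => Gd_mono (hδle T hTM) hF) T (Kf T) V)
      exact_mod_cast this)
  refine h3.trans ?_
  have h4 : ((Fintype.piFinset (fun _ : Fin (k + 1) => V)).filter (fun y => Function.Injective y ∧
      Gd k δ X b (univ.image y))).card ≤ (goodY k δ X b V).card := by
    apply Finset.card_le_card
    intro y hy
    unfold goodY
    rw [Finset.mem_filter] at hy ⊢
    refine ⟨hy.1, hy.2.1, ?_⟩
    exact hy.2.2 y hy.2.1 (fun i => Finset.mem_image_of_mem y (Finset.mem_univ i))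
  exact_mod_cast h4

end Pool.Agent.W12.HR
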