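import Pool.Agent.W70.HR.Stm
import Pool.Agent.Helper112.Lp.Kmt

/-! HR-MV: lower bound of the density of the rough numbers. -/

set_option autoImplicit false

open Finset

namespace Pool.Agent.W12.HR

open Pool.Agent.H361R2.PP Pool.Agent.W70.HR

theorem mv : Mer → Wtx → S_MV := by
  intro hM hW
  obtain ⟨c, C, hc, hC, h⟩ := Pool.Agent.Helper112.LP.mertens_prod
  obtain ⟨C', _, hM⟩ := hM
  have hl2 : 0 < Real.log 2 := Real.log_pos (by norm_num)
  refine ⟨c * Real.log 2, by positivity, ?_⟩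
  intro δ hδ hδ1
  obtain ⟨X1, h1⟩ := hM δ hδ hδ1
  obtain ⟨X2, h2⟩ := hW.2 δ hδ hδ1
  refine ⟨max (max X1 X2) 2, ?_⟩
  intro X hX
  have hX1 : X1 ≤ X := (le_max_left _ _).trans ((le_max_left _ _).trans hX)
  have hX2 : X2 ≤ X := (le_max_right _ _).trans ((le_max_left _ _).trans hX)
  have hX3 : 2 ≤ X := (le_max_right _ _).trans hX
  have hXr : (2 : ℝ) ≤ X := by exact_mod_cast hX3
  have hlX : 0 < Real.log X := Real.log_pos (by linarith)
  have h3 := (h1 X hX1).2.2
  have h4 := (h2 X hX2).1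
  have h5 := (h (JJ δ X)).1
  rw [h3] at h5
  have h6 : (2 : ℝ) ^ JJ δ X * Real.log 2 ≤ δ * Real.log X := by
    have h7 := Real.log_le_log (by positivity) h4
    rw [Real.log_rpow (by linarith), Real.log_pow] at h7
    push_cast at h7
    exact h7
  have h8 : (0 : ℝ) < 2 ^ JJ δ X := by positivity
  calc c * Real.log 2 = c / 2 ^ JJ δ X * (2 ^ JJ δ X * Real.log 2) := by field_simp
    _ ≤ c / 2 ^ JJ δ X * (δ * Real.log X) := mul_le_mul_of_nonneg_left h6 (by positivity)
    _ ≤ VV δ X * ((Nat.totient (Wm X) : ℝ) / Wm X) * (δ * Real.log X) := by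
        apply mul_le_mul_of_nonneg_right _ (by positivity)
        exact h5

end Pool.Agent.W12.HR
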